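import Pool.Agent.R170.FA.Bnd
import Pool.Agent.R170.FA.Rec

/-!
# The complete bipartite 3-graph maximises the number of copies of its nearly balanced subgraphs

Let `K(a,b)` be the complete bipartite 3-graph with parts of sizes `a` and `b`: its edges are the
triples which meet both parts. `patterns a b H` is the number of pairs `(A,B)` of disjoint vertex
sets of sizes `a` and `b` on which the 3-graph `H` is this complete bipartite 3-graph. For all
`2 ≤ a ≤ b ≤ a + 2` with `a + b ≥ 5` and every 3-graph `H` on `n` vertices without a complete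
3-graph on five vertices, this number is at most `2 (n/2)^(a+b) / (a! b!)`, and the complete
bipartite 3-graphs with equal parts, the conjectured extremal 3-graphs for the number of edges, show
that this is asymptotically best possible for every such `(a,b)`.

Outline: three sum of squares certificates for six-vertex structures, found by a semidefinite
programming solver and made exact, give the cases `(2,3)`, `(3,3)`, `(2,4)`. A double counting
argument, in which the two kinds of vertices that can extend a pattern are disjoint, leads without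
any loss from `(a,b)` to `(a+1,b+1)`.
-/

set_option autoImplicit false
set_option maxRecDepth 100000
open Finset
open scoped Classical

namespace Pool.Agent.Results.MP_a4d830_co.BipartitePatternMaxima

/-- The 3-graph `H` has no five vertices spanning all ten triples. -/
def K53Free {n : ℕ} (H : Finset (Finset (Fin n))) : Prop :=
  ∀ S : Finset (Fin n), S.card = 5 → ∃ s ⊆ S, s.card = 3 ∧ s ∉ H

/-- The number of pairs `(A,B)` of disjoint vertex sets, `A` of size `a` and `B` of size `b`, such
that a triple in `A ∪ B` is an edge of `H` if and only if it meets both `A` and `B`. -/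
noncomputable def patterns {n : ℕ} (a b : ℕ) (H : Finset (Finset (Fin n))) : ℕ :=
  (((univ : Finset (Fin n)).powersetCard a ×ˢ (univ : Finset (Fin n)).powersetCard b).filter fun p =>
    Disjoint p.1 p.2 ∧ ∀ t ⊆ p.1 ∪ p.2, t.card = 3 → (t ∈ H ↔ ¬ t ⊆ p.1 ∧ ¬ t ⊆ p.2)).card

open Pool.Agent.R170.FA Pool.Agent.H122R2.N6 Pool.Agent.H122R2.K5 Pool.Agent.Y580.FL

theorem patterns_eq {n : ℕ} (a b : ℕ) (H : Finset (Finset (Fin n))) :
    patterns a b H = (prs a b H).card := by
  unfold patterns prs Pat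
  refine congrArg card ?_
  ext p
  simp only [mem_filter]

section
variable {n : ℕ} {H : Finset (Finset (Fin n))}

theorem zero5 {H : Finset (Finset (Fin 0))} (P : Finset (Fin 0) → Prop) [DecidablePred P] (k : ℕ)
    (hk : k ≠ 0) : (((univ : Finset (Fin 0)).powersetCard k).filter P).card = 0 := by
  rw [card_eq_zero, filter_eq_empty_iff]
  intro S hS
  rw [mem_powersetCard] at hS
  have h := card_le_univ S
  rw [Fintype.card_fin] at h
  omega

/-- the sets of `k` vertices which contain exactly `m` edges -/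
noncomputable def spans {n : ℕ} (k m : ℕ) (H : Finset (Finset (Fin n))) : Finset (Finset (Fin n)) :=
  ((univ : Finset (Fin n)).powersetCard k).filter fun S => (H.filter fun e => e ⊆ S).card = m

theorem bnd59 (h3 : ∀ s ∈ H, s.card = 3) (hK : K53Free H) : 192 * (spans 5 9 H).card ≤ n ^ 5 := by
  rcases Nat.eq_zero_or_pos n with h0 | hn
  · subst h0
    have : (spans 5 9 H).card = 0 := zero5 (H := H) _ 5 (by norm_num)
    rw [this]; norm_num
  have hb := bM59 (tri_sy H) (nok h3 hK)
  rw [sum_x5] at hb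
  have h1 := cnt_g9 (H := H) h3
  have h2 : (120 : ℤ) * ((spans 5 9 H).card : ℤ) ≤ ∑ x : Fin 5 → Fin n, (G5 g9 (tri H) (x 0) (x 1) (x 2) (x 3) (x 4) : ℤ) := by
    unfold spans
    exact_mod_cast h1
  have hn' : (0 : ℤ) < n := by exact_mod_cast hn
  have h4 : (n : ℤ) * (192 * ((spans 5 9 H).card : ℤ)) ≤ (n : ℤ) * (n : ℤ) ^ 5 := by nlinarith
  have h5 := le_of_mul_le_mul_left h4 hn'
  exact_mod_cast h5

theorem bnd24 (h3 : ∀ s ∈ H, s.card = 3) (hK : K53Free H) :
    1536 * (((univ : Finset (Fin n)).powersetCard 6).filter (Split 2 H)).card ≤ n ^ 6 := by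
  have hb := bM24 (tri_sy H) (nok h3 hK)
  have h1 := cnt_24 (H := H)
  have h2 : (720 : ℤ) * ((((univ : Finset (Fin n)).powersetCard 6).filter (Split 2 H)).card : ℤ) ≤
      ∑ x : Fin 6 → Fin n, (G6 g24 (tri H) (x 0) (x 1) (x 2) (x 3) (x 4) (x 5) : ℤ) := by
    exact_mod_cast h1
  have h4 : (1536 * ((((univ : Finset (Fin n)).powersetCard 6).filter (Split 2 H)).card : ℤ))
      ≤ (n : ℤ) ^ 6 := by linarith
  exact_mod_cast h4

theorem bnd618 (h3 : ∀ s ∈ H, s.card = 3) (hK : K53Free H) : 2304 * (spans 6 18 H).card ≤ n ^ 6 := by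
  have hb := bE18 (tri_sy H) (nok h3 hK)
  have h1 := cnt_gm (H := H) h3 18
  have h2 : (720 : ℤ) * ((spans 6 18 H).card : ℤ) ≤
      ∑ x : Fin 6 → Fin n, (G6 (gm 18) (tri H) (x 0) (x 1) (x 2) (x 3) (x 4) (x 5) : ℤ) := by
    unfold spans
    exact_mod_cast h1
  have h4 : (2304 * ((spans 6 18 H).card : ℤ)) ≤ (n : ℤ) ^ 6 := by linarith
  exact_mod_cast h4

theorem base23 (h3 : ∀ s ∈ H, s.card = 3) (hK : K53Free H) : 192 * (prs 2 3 H).card ≤ n ^ 5 := by
  refine le_trans (Nat.mul_le_mul_left _ (prs_le_lt (by norm_num) (by norm_num) (spans 5 9 H) ?_))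
    (bnd59 h3 hK)
  intro A B hA hB h
  have hc := h.card_union hA hB
  refine mem_filter.mpr ⟨hc, ?_⟩
  have h5 := split_card (a := 2) (b := 3) h3 (mem_powersetCard.mp hc).2 (h.split hA)
  have e1 : Nat.choose 2 3 = 0 := by decide
  have e2 : Nat.choose 3 3 = 1 := by decide
  have e3 : Nat.choose (2 + 3) 3 = 10 := by decide
  rw [e1, e2, e3] at h5
  omega

theorem base24 (h3 : ∀ s ∈ H, s.card = 3) (hK : K53Free H) : 1536 * (prs 2 4 H).card ≤ n ^ 6 := by
  refine le_trans (Nat.mul_le_mul_left _ (prs_le_lt (by norm_num) (by norm_num) _ ?_)) (bnd24 h3 hK)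
  intro A B hA hB h
  exact mem_filter.mpr ⟨h.card_union hA hB, h.split hA⟩

theorem base33 (h3 : ∀ s ∈ H, s.card = 3) (hK : K53Free H) : 1152 * (prs 3 3 H).card ≤ n ^ 6 := by
  have h1 := prs_le_eq (H := H) (a := 3) (by norm_num) (spans 6 18 H) (by
    intro A B hA hB h
    have hc := h.card_union hA hB
    refine mem_filter.mpr ⟨hc, ?_⟩
    have h5 := split_card (a := 3) (b := 3) h3 (mem_powersetCard.mp hc).2 (h.split hA)
    have e2 : Nat.choose 3 3 = 1 := by decide
    have e3 : Nat.choose (3 + 3) 3 = 20 := by decide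
    rw [e2, e3] at h5
    omega)
  have h2 := bnd618 h3 hK
  omega

theorem upper {a b : ℕ} (ha : 2 ≤ a) (hab : a ≤ b) (hb : b ≤ a + 2) (h5 : 5 ≤ a + b)
    (h3 : ∀ s ∈ H, s.card = 3) (hK : K53Free H) :
    2 ^ (a + b) * (a.factorial * b.factorial) * (prs a b H).card ≤ 2 * n ^ (a + b) := by
  have key : ∀ a0 b0 i : ℕ, 2 ≤ b0 → a = a0 + i → b = b0 + i →
      2 ^ (a0 + b0) * (a0.factorial * b0.factorial) * (prs a0 b0 H).card ≤ 2 * n ^ (a0 + b0) →
      2 ^ (a + b) * (a.factorial * b.factorial) * (prs a b H).card ≤ 2 * n ^ (a + b) := by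
    intro a0 b0 i hb0 e1 e2 h
    subst e1 e2
    refine (iter_mul a0 b0 hb0 i).trans ((Nat.mul_le_mul_right _ h).trans (le_of_eq ?_))
    rw [show a0 + i + (b0 + i) = a0 + b0 + 2 * i by ring, pow_add n (a0 + b0) (2 * i), mul_assoc]
  have hd : b = a ∨ b = a + 1 ∨ b = a + 2 := by omega
  rcases hd with hd | hd | hd
  · refine key 3 3 (a - 3) (by norm_num) (by omega) (by omega) ?_
    have h := base33 h3 hK
    have e : Nat.factorial 3 = 6 := rfl
    rw [e, show 3 + 3 = 6 from rfl]
    omega
  · refine key 2 3 (a - 2) (by norm_num) (by omega) (by omega) ?_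
    have h := base23 h3 hK
    have e : Nat.factorial 3 = 6 := rfl
    have e' : Nat.factorial 2 = 2 := rfl
    rw [e, e', show 2 + 3 = 5 from rfl]
    omega
  · refine key 2 4 (a - 2) (by norm_num) (by omega) (by omega) ?_
    have h := base24 h3 hK
    have e : Nat.factorial 4 = 24 := rfl
    have e' : Nat.factorial 2 = 2 := rfl
    rw [e, e', show 2 + 4 = 6 from rfl]
    omega

end

/-- For `2 ≤ a ≤ b ≤ a + 2`, `a + b ≥ 5`: a `K_5^3`-free 3-graph on `n` vertices has at most
`2 (n/2)^(a+b) / (a! b!)` patterns with parts of sizes `a` and `b`, and this is asymptotically best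
possible. -/
theorem result (a b : ℕ) (ha : 2 ≤ a) (hab : a ≤ b) (hb : b ≤ a + 2) (h5 : 5 ≤ a + b) :
    (∀ (n : ℕ) (H : Finset (Finset (Fin n))), (∀ s ∈ H, s.card = 3) → K53Free H →
      2 ^ (a + b) * (a.factorial * b.factorial) * patterns a b H ≤ 2 * n ^ (a + b)) ∧
    (∀ m : ℕ, ∃ H : Finset (Finset (Fin (2 * m))), (∀ s ∈ H, s.card = 3) ∧ K53Free H ∧
      2 * (m.choose a * m.choose b) ≤ patterns a b H) :=
  ⟨fun n H h3 hK => by
    rw [patterns_eq]
    exact upper ha hab hb h5 h3 hK,
   fun m => ⟨bip (2 * m) m, bip_card _ _, fun S hS => bip_free _ _ S hS, by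
    rw [patterns_eq]
    exact prs_low m a b (by omega)⟩⟩

end Pool.Agent.Results.MP_a4d830_co.BipartitePatternMaxima
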