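import Pool.Agent.TH200.LPl

/-!
# Turán's construction maximises the codegree power sum for every odd clique

For every `k ≥ 2` there is `p₀` such that for every real `p ≥ p₀` the maximum of
`∑ d(x,y)^p`, over the `K_{2k+1}^3`-free 3-graphs on `n` vertices and the ordered pairs of
vertices, is `((1 - 1/k) + (1/k) (1 - 1/k)^p + o(1)) n^(p+2)`; Turán's construction with `k` parts
attains it.  For `p = 1` this is Turán's conjecture `π(K_{2k+1}^3) = 1 - 1/k²`.
-/

set_option autoImplicit false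
open Finset
open scoped Classical

namespace Pool.Agent.Results.MP_a4d830_co.OddCliquesCodegreePowers

/-- No `m` vertices of the 3-graph `H` span all their triples. -/
def CliqueFree {n : ℕ} (m : ℕ) (H : Finset (Finset (Fin n))) : Prop :=
  ∀ S : Finset (Fin n), S.card = m → ∃ s ⊆ S, s.card = 3 ∧ s ∉ H

/-- The codegree `d(x,y)`: the number of vertices `z` such that `{x, y, z}` is an edge of `H`.
It is `0` for `x = y`, since the edges of `H` have three elements. -/
noncomputable def codegree {n : ℕ} (H : Finset (Finset (Fin n))) (x y : Fin n) : ℕ :=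
  (univ.filter fun z => {x, y, z} ∈ H).card

/-- Turán's construction with `k` parts, the residue classes modulo `k`: all the triples which are
not contained in one part. -/
noncomputable def turan (k n : ℕ) : Finset (Finset (Fin n)) :=
  univ.filter fun e => e.card = 3 ∧ ∃ x ∈ e, ∃ y ∈ e, x.val % k ≠ y.val % k

/-- For every `k ≥ 2` there is `p₀ ≥ 2` such that for every real `p ≥ p₀` every
`K_{2k+1}^3`-free 3-graph `H` on `n` vertices satisfies
`∑_{x,y} d(x,y)^p ≤ ((1 - 1/k) + (1/k) (1 - 1/k)^p) n^(p+2)`.  For every `k ≥ 2` and every real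
`p ≥ 1` the constant is attained asymptotically by Turán's construction with `k` parts, which
is a 3-graph without a complete subgraph on `2k+1` vertices. -/
theorem result (k : ℕ) (hk : 2 ≤ k) :
    (∃ p₀ : ℝ, 2 ≤ p₀ ∧ ∀ p : ℝ, p₀ ≤ p →
      ∀ (n : ℕ) (H : Finset (Finset (Fin n))), (∀ e ∈ H, e.card = 3) →
        CliqueFree (2 * k + 1) H →
        ∑ x : Fin n, ∑ y : Fin n, (codegree H x y : ℝ) ^ p ≤
          ((1 - 1 / (k : ℝ)) + 1 / (k : ℝ) * (1 - 1 / (k : ℝ)) ^ p) * (n : ℝ) ^ (p + 2)) ∧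
    (∀ n : ℕ, (∀ e ∈ turan k n, e.card = 3) ∧ CliqueFree (2 * k + 1) (turan k n)) ∧
    (∀ p : ℝ, 1 ≤ p → ∀ c : ℝ, c < (1 - 1 / (k : ℝ)) + 1 / (k : ℝ) * (1 - 1 / (k : ℝ)) ^ p →
      ∃ N : ℕ, ∀ n : ℕ, N ≤ n → c * (n : ℝ) ^ (p + 2) <
        ∑ x : Fin n, ∑ y : Fin n, (codegree (turan k n) x y : ℝ) ^ p) :=
  ⟨TH200.LP.upper_finset k hk,
   fun n => ⟨TH200.LP.tur_card k n, TH200.LP.tur_free k n (by omega)⟩,
   fun p hp c hc => TH200.LP.lower k hk p hp c hc⟩

end Pool.Agent.Results.MP_a4d830_co.OddCliquesCodegreePowers
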