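import Pool.Agent.R187.SH.Blow

set_option autoImplicit false

/-!
# Turán densities of `K_{k+1}^{(k)}` for sum hypergraphs

Let `A` be a finite abelian group, `t ≥ 1` and `S` a subset of `A`. The sum `k`-graph of `S` has the
vertices `A × ZMod t` (`t` copies of every element of `A`; for `t = 1` the elements of `A`), and its
edges are the `k`-sets of vertices for which the sum of the first coordinates is in `S`. For every
`k ≥ 2` the maximal density of a sum `k`-graph without a complete `k`-graph on `k + 1` vertices is
determined asymptotically for all groups: it is `1 / p + o(1)`, where `p` is the least prime factor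
of `gcd (|A|, k)`, and `o(1)` if `|A|` and `k` are coprime (`o(1)` for `t |A| → ∞`). If `t ≥ k + 1`
the bound `|S| ≤ |A| / p` is exact.

Proof: `k + 1` different elements of `S` whose sum is in `k A` give a complete `k`-graph. For groups
of exponent dividing `k` and sets with more than `|A| / p` elements, `k + 1` elements of `S`, with
repetitions, with sum zero are found by Kneser's theorem. The repetitions are removed with Roth's
theorem: all but few elements of `S` are centres of many three-term progressions in `S`.
-/

namespace Pool.Agent.Results.MP_a4d830_co.SumHypergraphs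

open Finset

/-- The edges of the sum `k`-graph of `S`: the `k`-sets of elements of `A × ZMod t` for which the sum
of the first coordinates is in `S`. -/
def sumEdges {A : Type} [AddCommGroup A] [Fintype A] [DecidableEq A] (k t : ℕ) [NeZero t]
    (S : Finset A) : Finset (Finset (A × ZMod t)) :=
  ((univ : Finset (A × ZMod t)).powersetCard k).filter (fun e => ∑ x ∈ e, x.1 ∈ S)

/-- The sum `k`-graph of `S` contains no complete `k`-graph on `k + 1` vertices. -/
def CliqueFree {A : Type} [AddCommGroup A] [Fintype A] [DecidableEq A] (k t : ℕ) [NeZero t]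
    (S : Finset A) : Prop :=
  ∀ T : Finset (A × ZMod t), T.card = k + 1 → ∃ e ⊆ T, e.card = k ∧ e ∉ sumEdges k t S

/-- For every `k ≥ 2`: (1) the maximal density of a sum `k`-graph on `|A| t` vertices without
`K_{k+1}^{(k)}` is `1 / p + o(1)`, `p` the least common prime factor of `|A|` and `k`, and `o(1)` if
there is none, uniformly in all `A` and `t` with `|A| t → ∞`; (2) if `t ≥ k + 1` then
`p |S| ≤ |A|` for each `p` that is at most as large as all common prime factors. -/
theorem result (k : ℕ) (hk : 2 ≤ k) :
    (∀ ε : ℝ, 0 < ε → ∃ N : ℕ, ∀ (A : Type) [AddCommGroup A] [Fintype A] [DecidableEq A]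
      (t : ℕ) [NeZero t], N ≤ Fintype.card A * t →
      (∀ p : ℕ, p.Prime → p ∣ Fintype.card A → p ∣ k →
        (∀ l : ℕ, l.Prime → l ∣ Fintype.card A → l ∣ k → p ≤ l) →
        (∀ S : Finset A, CliqueFree k t S →
          ((sumEdges k t S).card : ℝ) ≤ (1 / p + ε) * ((Fintype.card A * t).choose k : ℝ)) ∧
        ∃ S : Finset A, CliqueFree k t S ∧
          (1 / p - ε) * ((Fintype.card A * t).choose k : ℝ) ≤ ((sumEdges k t S).card : ℝ)) ∧
      (Nat.Coprime (Fintype.card A) k → ∀ S : Finset A, CliqueFree k t S →
        ((sumEdges k t S).card : ℝ) ≤ ε * ((Fintype.card A * t).choose k : ℝ))) ∧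
    (∀ (A : Type) [AddCommGroup A] [Fintype A] [DecidableEq A] (t : ℕ) [NeZero t], k + 1 ≤ t →
      ∀ p : ℕ, (∀ l : ℕ, l.Prime → l ∣ Fintype.card A → l ∣ k → p ≤ l) →
      ∀ S : Finset A, CliqueFree k t S → p * S.card ≤ Fintype.card A) := by
  constructor
  · intro ε hε
    obtain ⟨N1, hN1⟩ := Pool.Agent.R187.SH.upper k hk ε hε
    obtain ⟨N2, hN2⟩ := Pool.Agent.R187.SH.lower k hk ε hε
    obtain ⟨N3, hN3⟩ := Pool.Agent.R187.SH.coprime_case k hk ε hε
    refine ⟨N1 + N2 + N3, ?_⟩
    intro A _ _ _ t _ hA
    refine ⟨?_, ?_⟩
    · intro p hp hpA hpk hmin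
      exact ⟨fun S hS => hN1 A t (by omega) p hp.two_le hmin S hS,
        hN2 A t (by omega) p hp hpA hpk⟩
    · intro hc S hS
      exact hN3 A t (by omega) hc S hS
  · intro A _ _ _ t _ ht p hp S hS
    exact Pool.Agent.R187.SH.blow_exact k t ht (by omega) p hp S hS

end Pool.Agent.Results.MP_a4d830_co.SumHypergraphs
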