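import Pool.Agent.R81.UDC.Num
import Pool.Agent.TH440.DC.Main

/-!
# De Caen's bound for `π(K_m^r)` is sharp up to a factor `O(μ log μ)`, `μ = min(r, m - r)`

The notions are those of `Pool.Agent.H120R2.CliqueDefs`: `ex n r m = ex(n, K_m^r)` and
`turanDensity r m = π(K_m^r)`, the limit of `ex n r m / C(n, r)`.

De Caen's inequality is `C(m-1, r-1) (1 - π(K_m^r)) ≥ 1`.  We show for all `m > r ≥ 3` that the left
side is at most `52 μ log (3 μ)` with `μ = min(r, m - r)`, and that
`C(m, r) (1 - π(K_m^r)) ≤ 4 + 10 a log (3 a)` with `a = m - r`; the last bound does not depend on `r`.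

Outline (`Pool.Agent.R81.UDC`).  Let `t(k)` be the density `1 - π(K_{k+a}^k)` of the smallest families
of `k`-sets with a member in every `(k+a)`-set.  Cut a `(k+a)`-set of vertices (which are linearly
ordered) into its `r₁ + a` lowest and its `r₂ + a` highest points, `k = r₁ + a + r₂`.  Take a random
family `w` of `r₁`-sets of density `p`.  The blocks are the `k`-sets whose `r₁` lowest points form a
member of `w`, and the `k`-sets whose `r₁ + a` lowest points contain no member of `w` and whose `r₂`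
other points form a block of a system for `r₂`.  This gives
`t(k) ≤ p + (1-p)^C(r₁+a,a) t(r₂)`.  With `r₂ = ⌊k/(4a)⌋` and `p` about `a log(4a) / C(r₁+a,a)` the
normalised densities `C(k+a,a) t(k)` stay below `4 + 10 a log(3a)` as soon as they do for
`k + a ≤ 9 a²`, where they are bounded by the greedy systems of the starting library
(`Pool.Agent.TH173.RT`).  For `m - r > r` the bound is the one of `MP_465f8a_co.UniformUpper`
(helper80).
-/

set_option autoImplicit false

open Filter Topology

namespace Pool.Agent.Results.MP_a4d830_co.UniformDeCaen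

open Pool.Agent.H120R2.Clique Pool.Agent.R81.UDC

theorem choose_mul (r m : ℕ) (hr : 1 ≤ r) (hm : r < m) :
    ((m - 1).choose (r - 1) : ℝ) * m = r * ((m.choose r : ℕ) : ℝ) := by
  obtain ⟨s, rfl⟩ : ∃ s, r = s + 1 := ⟨r - 1, by omega⟩
  obtain ⟨k, rfl⟩ : ∃ k, m = k + 1 := ⟨m - 1, by omega⟩
  have h := Nat.add_one_mul_choose_eq k s
  have h' : ((k : ℝ) + 1) * (k.choose s : ℝ) = ((k + 1).choose (s + 1) : ℝ) * ((s : ℝ) + 1) := by
    exact_mod_cast h
  rw [Nat.add_sub_cancel, Nat.add_sub_cancel]
  push_cast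
  linarith

/-- For all `m > r ≥ 3`, with `μ = min(r, m - r)`:
`1 < C(m-1, r-1) (1 - π(K_m^r)) ≤ 52 μ log (3 μ)` and
`C(m, r) (1 - π(K_m^r)) ≤ 4 + 10 (m - r) log (3 (m - r))`. -/
theorem result : ∀ r m : ℕ, 3 ≤ r → r < m →
    Tendsto (fun n : ℕ => (ex n r m : ℝ) / (n.choose r : ℝ)) atTop (𝓝 (turanDensity r m)) ∧
    1 < ((m - 1).choose (r - 1) : ℝ) * (1 - turanDensity r m) ∧
    ((m - 1).choose (r - 1) : ℝ) * (1 - turanDensity r m) ≤
      52 * min (r : ℝ) (m - r) * Real.log (3 * min (r : ℝ) (m - r)) ∧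
    (m.choose r : ℝ) * (1 - turanDensity r m) ≤
      4 + 10 * ((m : ℝ) - r) * Real.log (3 * ((m : ℝ) - r)) := by
  intro r m hr hm
  refine ⟨ratio_tendsto r m, ?_, ?_⟩
  · have h := (Pool.Agent.TH440.DC.main hr hm).1
    have hD : (0 : ℝ) < ((m - 1).choose (r - 1) : ℝ) := by
      exact_mod_cast Nat.choose_pos (show r - 1 ≤ m - 1 by omega)
    have hDD : Pool.Agent.TH440.DC.DD r m = 1 / ((m - 1).choose (r - 1) : ℝ) := rfl
    have hp : 0 < Pool.Agent.TH440.DC.DD r m := by rw [hDD]; positivity
    have h1 : Pool.Agent.TH440.DC.DD r m < 1 - turanDensity r m := by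
      have : 0 < Pool.Agent.TH440.DC.DD r m ^ 3 / 40 := by positivity
      linarith
    rw [hDD, div_lt_iff₀ hD] at h1
    linarith
  · obtain ⟨a, ha⟩ : ∃ a, m = r + a := ⟨m - r, by omega⟩
    subst ha
    have ha : 1 ≤ a := by omega
    have haR : (1 : ℝ) ≤ a := by exact_mod_cast ha
    have hrR : (3 : ℝ) ≤ r := by exact_mod_cast hr
    have e1 : ((r + a : ℕ) : ℝ) - r = a := by push_cast; ring
    rw [e1]
    have hB : ((r + a).choose r : ℝ) * (1 - turanDensity r (r + a)) = B a r := by
      unfold B Pool.Agent.H688R3.TuranGen.t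
      rw [Nat.choose_symm_add]
    have h1 := B_le ha r (by omega)
    have h2 := upper52 ha (show 2 ≤ r by omega)
    have hlog : ∀ x : ℝ, 1 ≤ x → 1.09 ≤ Real.log (3 * x) := fun x hx =>
      log_three.trans (Real.log_le_log (by norm_num) (by linarith))
    refine ⟨?_, by rw [hB]; exact h1⟩
    have hch := choose_mul r (r + a) (by omega) hm
    have hm0 : (0 : ℝ) < ((r + a : ℕ) : ℝ) := by exact_mod_cast (show 0 < r + a by omega)
    have e2 : ((r + a - 1).choose (r - 1) : ℝ) = r / ((r + a : ℕ) : ℝ) * ((r + a).choose r : ℝ) := by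
      field_simp
      linarith
    rw [e2, mul_assoc, hB]
    have hB0 : 0 ≤ B a r := by
      unfold B
      exact mul_nonneg (Nat.cast_nonneg _) (Pool.Agent.H688R3.TuranGen.t_nonneg (by omega))
    rcases le_total (a : ℝ) r with har | har
    · rw [min_eq_right har]
      have h3 : (r : ℝ) / ((r + a : ℕ) : ℝ) ≤ 1 := by
        rw [div_le_one hm0]; push_cast; linarith
      have h4 : (r : ℝ) / ((r + a : ℕ) : ℝ) * B a r ≤ 1 * B a r :=
        mul_le_mul_of_nonneg_right h3 hB0
      have h5 := hlog a haR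
      nlinarith
    · rw [min_eq_left har]
      have h3 : (r : ℝ) / ((r + a : ℕ) : ℝ) * B a r ≤
          (r : ℝ) / ((r + a : ℕ) : ℝ) * (52 * a * Real.log r) :=
        mul_le_mul_of_nonneg_left h2 (by positivity)
      refine h3.trans ?_
      have h6 : Real.log r ≤ Real.log (3 * r) := Real.log_le_log (by linarith) (by linarith)
      have h7 : 0 ≤ Real.log r := Real.log_nonneg (by linarith)
      have h8 : (a : ℝ) / ((r + a : ℕ) : ℝ) ≤ 1 := by
        rw [div_le_one hm0]; push_cast; linarith
      calc (r : ℝ) / ((r + a : ℕ) : ℝ) * (52 * a * Real.log r)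
          = (a : ℝ) / ((r + a : ℕ) : ℝ) * (52 * r * Real.log r) := by ring
        _ ≤ 1 * (52 * r * Real.log r) := mul_le_mul_of_nonneg_right h8 (by positivity)
        _ ≤ 52 * r * Real.log (3 * r) := by
            rw [one_mul]
            exact mul_le_mul_of_nonneg_left h6 (by positivity)

end Pool.Agent.Results.MP_a4d830_co.UniformDeCaen
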